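import Mathlib

/-!
# Four squares with `x y (42 x² + 98 y² + 14 z²)` a square

The assertion of the problem fails for the triple `(42, 98, 14)` and `n = 56271`: no representation
`56271 = x² + y² + z² + w²` with `x, y, z, w ∈ ℕ` is such that `x y (42 x² + 98 y² + 14 z²)` is a
square.

The proof runs through all triples `(x, y, z)` which pass the local conditions modulo `16` and `9`
and excludes each of them by the squares modulo seven further integers.
-/

set_option autoImplicit false

namespace Pool.Agent.Results.MP_dfd283_nt.CounterexampleTriple

/-- The bit number `k` of `M`. -/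
def tb (M k : ℕ) : Bool := Nat.beq (Nat.land (Nat.shiftRight M k) 1) 1

/-- The squares modulo `5005`, as a bit mask. -/
def M1 : ℕ := 4413959611092897234900029882901046947742256226640666981983849554034377505264056227486148690411371025489791284794242239507405598126196803175642961898886731588616138988825431326582839537953975862876308778282966371848755059677603340665480559943713001163101980527707792458212362786755355667660485460502806178059135231990826108240756157417396437027950431154991698659933624080014550266922429949467943791969729697947566788226887891380539023835159671105527244884078773915347863472970364952432882432990592686925504258550627317701544832972224530585352418999362689996619179745137657480353565558465148851998080224971512363925254160692640102690383597390172025103576547702141647616450640344692774648346938980697770517316408830956202104986447211145387563013551239091302953720166983127805993719431534004626918081866821080064582361574729959535330280002964623050297609047260467169453378153713636533474681836485236097733904877292866753232737768209866777952670024697236437176517354457118018643610679540657935702039593172242624362005528178764740459710262445435331010709868853486478877862900850042908718214807965987006890627086781828407392798507972101748194280497370358094750472827567311314764191705442434205477878076124438086382350896319145896314326334632484841609432520924306896066633129626534782377001651896741011859648093190222139667709701642862382757941592380979374723848085855812247627326730109815970626865228298476240652456618911000138964521841260130426523820767467153403431160844850382015195437296242417395109747311123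

/-- The squares modulo `7429`, as a bit mask. -/
def M2 : ℕ := 739706308431497200865785416563239752722944225046905559518903070026548666261733184916020439429254210948256121828445707166283891358017136811681830769137859747736607805170092772111758299647134383631703205886180003068105403142427499329545777644542435290007794679421424995722315526934859546127812155583962186762354182293770908811287640046009023107514423659538900808285517543586993859975262923082552025371919479958809260454072996747219891409069940890614071802972937560250271666233495686648338233008903279343070799779984878703083588263417305731421678557881510337667509050621987072015099187047141082227169999604268752468710551478308858000030280611119781031116667282523220586592451070306559495126531848780614930175504304907490924887578184736478705492455678654451204895542310429937089110166700958472035405251655900719111305853263277125515856901823285826557185282010007877741184336658331293760879043991918045165231032478978656077832985990999990890839317390268029918856454198483396114595246446258654556675292233431784011821393108264650348218388792511829502852778804037747266539242724318194240416632238883084418104412299041451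482450658599037718956407562526538461396089617613265125071267748606679573247450945660407264651331897224835953060139319413280780019422186421075501350427950932117818854310182884544148845863269018388009991610930571640435704459419427587765113943164465644212247500046203894572464662780605024573481121025415357199926694730326401794282631623162005596637440225711761125304198751470349095891229159210538434381291352798270057908992538903147463360974127561889299975164629058893673898957066238861109308512299848251309139620319243490184174431215519937125371615765435174167152608874765536409637138635242611614120232653521732538406365886353755790931332836451481051535221101405196972521109478236568669439233299548985354239104248269920490390371906764777026321448878236029495431217780221430738300595915567797276031101436815800769679282096371252428561127343986279629750170004294780572997634810482711741910798983340625525771833077413614829044737918075301456405598700711238111513660180818033263762517921908323413416922767003481875777003723580307024342389718068525087420041257574406362026182713350101628109316110355323063934106830586287030803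

/-- The squares modulo `899`, as a bit mask. -/
def M3 : ℕ := 66554504448532686078192410499025370160906084881093277832870425059512669236303238926155587161972258195699981267044969524835936206813784803127304419602345427972947004382245501682799698978586858945543741347213431184529293929125066336314530792592366507626198049034452665011

/-- The squares modulo `1517`, as a bit mask. -/
def M4 : ℕ := 2599525837471380740247080474084918944515354560865063076412923349292560839422512301119671654241367827497937527953869559964264201971764378601778480818145816073671406205499664775579780604629868643033789755055494643911112042977000601777138841134205691170033740343716558400014841403964053378246686067668622326084456723212441156356749563379360429494108510470109458502879626919418806603004413382009690016058059452260497946351264929537832765229843025840598958540307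

/-- The squares modulo `2021`, as a bit mask. -/
def M5 : ℕ := 7525139898648685074824801363820373657287629304669815131670496212539019496403305377141624159571090216718187298886711041503545070843357447788976962877739927954555207700268649006856970423238083562097343341269111980596611871272255589502383263377812025812001466905700201384363173549711938379300923398337446899365972490395589453035250009069642117339885813192764003746189777610280001387491476913632133911715406705397814276851729548572354202905950278697240236670545111844262269960794602743873803769610755805161565980996954544787542961421979209142819913564516415185955455383868762745978571043932832831067425018692179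

/-- The squares modulo `3127`, as a bit mask. -/
def M6 : ℕ := 3602691829007935068747665975768426998977432647815936317021844162984597953898243341328092227500457760166762842453162876150080530962679960446499624940929356613507134529048394322329691945901066696345366856200988564591198703357147803884027231721015112543595158112740860616461653678413179602422091828944930956372642811679258188786558703664850383825193705544878690418326241844621247279909305355239367162490966352608195356486887181394433801917480528508635872161602658085485459125412446455460416554025294733393575306719313289271453868019101270698722538123812714948279844694290162974425347684522263002052183270789949627317436898711833296838120440782605347524724954278008810540090005490004992952519029645366228443256675648185472638287181608481076479266409177966825759422843624684812604443636176924859874259961533111987037686022584658418143188669896949426142263014018665139310520753619167654624699011426587166182912605539473165390297180308541033120403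

/-- The squares modulo `4087`, as a bit mask. -/
def M7 : ℕ := 319471158597442104819845046688317430388522609434392307602058156506548055498024736691265489214941060912959730470677547281088148745562672300091584809313267252142516389473734369602789041045546910240283372380722864254412154472867771123635829554027298834909487959585189721731220757157013729334518825634047671319370662082944897740708666126786318102690370155360052373754688164427545131631384385555207820782794216973817262158660775735742169952232825150549272390207233273757151008592053783174942837718666114790688144157538204404202996691861558941194139952116213711656533827914773777721031446764249283665393507513295898891308977023889160528999476594176503623872893323906665928932740231218704466585764313668920604845424705356074273186203522172299019343418260752382621241490628332411592120093032362248764906079780280460744883640516468793271540718332555636891138344441206791189441694457952361405133731711931100015978129967085881673962571317938872556013302216282641847118840368704204517749084721707187016977290631639217120995215114330061645178678471280747695407455437893639133467617661924003039435782180299322991386999008314737921996800287152383387282363223753140127924220868496587305392047067698692165269236874129047306259431446396505361596947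


/-- `14 x y (3 x² + 7 y² + z²) = x y (42 x² + 98 y² + 14 z²)`. -/
def Pf (x y z : ℕ) : ℕ :=
  Nat.mul (Nat.mul 14 (Nat.mul x y))
    (Nat.add (Nat.add (Nat.mul 3 (Nat.mul x x)) (Nat.mul 7 (Nat.mul y y))) (Nat.mul z z))

/-- A necessary condition for `v` and `p` to be squares. -/
def cond (v p : ℕ) : Bool :=
  tb M1 (Nat.mod v 5005) && (tb M1 (Nat.mod p 5005) && (tb M2 (Nat.mod v 7429) &&
  (tb M2 (Nat.mod p 7429) && (tb M3 (Nat.mod v 899) && (tb M3 (Nat.mod p 899) &&
  (tb M4 (Nat.mod v 1517) && (tb M4 (Nat.mod p 1517) && (tb M5 (Nat.mod v 2021) &&
  (tb M5 (Nat.mod p 2021) && (tb M6 (Nat.mod v 3127) && (tb M6 (Nat.mod p 3127) &&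
  (tb M7 (Nat.mod v 4087) && tb M7 (Nat.mod p 4087)))))))))))))

/-- The sum of three squares. -/
def Sf (x y z : ℕ) : ℕ := Nat.add (Nat.add (Nat.mul x x) (Nat.mul y y)) (Nat.mul z z)

/-- The triple `(x, y, z)` is excluded. -/
def ok (x y z : ℕ) : Bool :=
  cond_ (Nat.ble (Sf x y z) 56271) (Nat.sub 56271 (Sf x y z)) (Pf x y z)
where
  /-- The test, after the comparison. -/
  cond_ (b : Bool) (v p : ℕ) : Bool := bif b then !(cond v p) else true

/-- Lifts of the last coordinate. -/
def lz (x y z : ℕ) : Bool := ok x y z && (bif Nat.ble z 93 then ok x y (Nat.add z 144) else true)

/-- Lifts of the last two coordinates. -/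
def ly (x y z : ℕ) : Bool := lz x y z && (bif Nat.ble y 93 then lz x (Nat.add y 144) z else true)

/-- Lifts of all coordinates. -/
def lx (x y z : ℕ) : Bool := ly x y z && (bif Nat.ble x 93 then ly (Nat.add x 144) y z else true)

/-- The residue modulo `144` which is `a` modulo `16` and `b` modulo `9`. -/
def crt (a b : ℕ) : ℕ := Nat.mod (Nat.add (Nat.mul 81 a) (Nat.mul 64 b)) 144

/-- The admissible residues modulo `9`. -/
def L9 : List (ℕ × ℕ × ℕ) :=
  [(0,1,1), (0,1,2), (0,1,4), (0,1,5), (0,1,7), (0,1,8), (0,2,1), (0,2,2), (0,2,4), (0,2,5),
    (0,2,7), (0,2,8), (0,4,1), (0,4,2), (0,4,4), (0,4,5), (0,4,7), (0,4,8), (0,5,1), (0,5,2),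
    (0,5,4), (0,5,5), (0,5,7), (0,5,8), (0,7,1), (0,7,2), (0,7,4), (0,7,5), (0,7,7), (0,7,8),
    (0,8,1), (0,8,2), (0,8,4), (0,8,5), (0,8,7), (0,8,8), (1,0,1), (1,0,2), (1,0,4), (1,0,5),
    (1,0,7), (1,0,8), (1,1,1), (1,1,8), (1,2,0), (1,2,3), (1,2,6), (1,4,2), (1,4,7), (1,5,0),
    (1,5,3), (1,5,6), (1,7,4), (1,7,5), (1,8,0), (1,8,3), (1,8,6), (2,0,1), (2,0,2), (2,0,4),
    (2,0,5), (2,0,7), (2,0,8), (2,1,0), (2,1,3), (2,1,6), (2,2,2), (2,2,7), (2,4,0), (2,4,3),
    (2,4,6), (2,5,1), (2,5,8), (2,7,0), (2,7,3), (2,7,6), (2,8,4), (2,8,5), (4,0,1), (4,0,2),
    (4,0,4), (4,0,5), (4,0,7), (4,0,8), (4,1,2), (4,1,7), (4,2,0), (4,2,3), (4,2,6), (4,4,4),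
    (4,4,5), (4,5,0), (4,5,3), (4,5,6), (4,7,1), (4,7,8), (4,8,0), (4,8,3), (4,8,6), (5,0,1),
    (5,0,2), (5,0,4), (5,0,5), (5,0,7), (5,0,8), (5,1,0), (5,1,3), (5,1,6), (5,2,1), (5,2,8),
    (5,4,0), (5,4,3), (5,4,6), (5,5,4), (5,5,5), (5,7,0), (5,7,3), (5,7,6), (5,8,2), (5,8,7),
    (7,0,1), (7,0,2), (7,0,4), (7,0,5), (7,0,7), (7,0,8), (7,1,4), (7,1,5), (7,2,0), (7,2,3),
    (7,2,6), (7,4,1), (7,4,8), (7,5,0), (7,5,3), (7,5,6), (7,7,2), (7,7,7), (7,8,0), (7,8,3),
    (7,8,6), (8,0,1), (8,0,2), (8,0,4), (8,0,5), (8,0,7), (8,0,8), (8,1,0), (8,1,3), (8,1,6),
    (8,2,4), (8,2,5), (8,4,0), (8,4,3), (8,4,6), (8,5,2), (8,5,7), (8,7,0), (8,7,3), (8,7,6),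
    (8,8,1), (8,8,8)]

/-- The check for fixed residues modulo `16`. -/
def inner (a b c : ℕ) : Bool :=
  L9.all (fun t => lx (crt a t.1) (crt b t.2.1) (crt c t.2.2))

/-- The local conditions modulo `m`; here `r` is `56271` modulo `m`. -/
def allowed (m r a b c : ℕ) : Bool :=
  (List.range m).any (fun w => Nat.beq ((a * a + b * b + c * c + w * w) % m) r) &&
  (List.range m).any (fun s => Nat.beq (s * s % m) (Pf a b c % m))

/-- The check for `x ≡ a (mod 16)`. -/
def row (a : ℕ) : Bool :=
  (List.range 16).all (fun b => (List.range 16).all (fun c =>
    bif allowed 16 15 a b c then inner a b c else true))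

set_option maxRecDepth 100000 in
theorem mask1 : (List.range 5005).all (fun r => tb M1 (r * r % 5005)) = true := by decide +kernel

set_option maxRecDepth 100000 in
theorem mask2 : (List.range 7429).all (fun r => tb M2 (r * r % 7429)) = true := by decide +kernel

set_option maxRecDepth 100000 in
theorem mask3 : (List.range 899).all (fun r => tb M3 (r * r % 899)) = true := by decide +kernel

set_option maxRecDepth 100000 in
theorem mask4 : (List.range 1517).all (fun r => tb M4 (r * r % 1517)) = true := by decide +kernel

set_option maxRecDepth 100000 in
theorem mask5 : (List.range 2021).all (fun r => tb M5 (r * r % 2021)) = true := by decide +kernel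

set_option maxRecDepth 100000 in
theorem mask6 : (List.range 3127).all (fun r => tb M6 (r * r % 3127)) = true := by decide +kernel

set_option maxRecDepth 100000 in
theorem mask7 : (List.range 4087).all (fun r => tb M7 (r * r % 4087)) = true := by decide +kernel


set_option maxRecDepth 100000 in
theorem L9_complete : (List.range 9).all (fun a => (List.range 9).all (fun b =>
    (List.range 9).all (fun c => !(allowed 9 3 a b c) || L9.any (fun t =>
      Nat.beq t.1 a && (Nat.beq t.2.1 b && Nat.beq t.2.2 c))))) = true := by decide +kernel

set_option maxRecDepth 100000 in
theorem row0 : row 0 = true := by decide +kernel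

set_option maxRecDepth 100000 in
theorem row1 : row 1 = true := by decide +kernel

set_option maxRecDepth 100000 in
theorem row2 : row 2 = true := by decide +kernel

set_option maxRecDepth 100000 in
theorem row3 : row 3 = true := by decide +kernel

set_option maxRecDepth 100000 in
theorem row4 : row 4 = true := by decide +kernel

set_option maxRecDepth 100000 in
theorem row5 : row 5 = true := by decide +kernel

set_option maxRecDepth 100000 in
theorem row6 : row 6 = true := by decide +kernel

set_option maxRecDepth 100000 in
theorem row7 : row 7 = true := by decide +kernel

set_option maxRecDepth 100000 in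
theorem row8 : row 8 = true := by decide +kernel

set_option maxRecDepth 100000 in
theorem row9 : row 9 = true := by decide +kernel

set_option maxRecDepth 100000 in
theorem row10 : row 10 = true := by decide +kernel

set_option maxRecDepth 100000 in
theorem row11 : row 11 = true := by decide +kernel

set_option maxRecDepth 100000 in
theorem row12 : row 12 = true := by decide +kernel

set_option maxRecDepth 100000 in
theorem row13 : row 13 = true := by decide +kernel

set_option maxRecDepth 100000 in
theorem row14 : row 14 = true := by decide +kernel

set_option maxRecDepth 100000 in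
theorem row15 : row 15 = true := by decide +kernel


/-! ### Soundness -/

lemma tb_sq {m M : ℕ} (hm : 0 < m) (h : (List.range m).all (fun r => tb M (r * r % m)) = true)
    (s : ℕ) : tb M (Nat.mod (s * s) m) = true := by
  rw [List.all_eq_true] at h
  have h1 := h (s % m) (List.mem_range.2 (Nat.mod_lt s hm))
  have h2 : s % m * (s % m) % m = Nat.mod (s * s) m := by
    show _ = s * s % m
    rw [← Nat.mul_mod]
  rw [← h2]
  exact h1

lemma cond_sq (w s : ℕ) : cond (w * w) (s * s) = true := by
  unfold cond
  simp only [Bool.and_eq_true]
  exact ⟨tb_sq (by norm_num) mask1 w, tb_sq (by norm_num) mask1 s,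
    tb_sq (by norm_num) mask2 w, tb_sq (by norm_num) mask2 s,
    tb_sq (by norm_num) mask3 w, tb_sq (by norm_num) mask3 s,
    tb_sq (by norm_num) mask4 w, tb_sq (by norm_num) mask4 s,
    tb_sq (by norm_num) mask5 w, tb_sq (by norm_num) mask5 s,
    tb_sq (by norm_num) mask6 w, tb_sq (by norm_num) mask6 s,
    tb_sq (by norm_num) mask7 w, tb_sq (by norm_num) mask7 s⟩

lemma Sf_eq (x y z : ℕ) : Sf x y z = x * x + y * y + z * z := rfl

lemma Pf_eq (x y z : ℕ) : Pf x y z = x * y * (42 * x ^ 2 + 98 * y ^ 2 + 14 * z ^ 2) := by
  have : Pf x y z = 14 * (x * y) * (3 * (x * x) + 7 * (y * y) + z * z) := rfl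
  rw [this]
  ring

lemma ok_sound {x y z w s : ℕ} (h1 : x * x + y * y + z * z + w * w = 56271)
    (h2 : Pf x y z = s * s) : ok x y z = false := by
  unfold ok ok.cond_
  have h3 : Nat.ble (Sf x y z) 56271 = true := by
    rw [Nat.ble_eq, Sf_eq]
    omega
  have h4 : Nat.sub 56271 (Sf x y z) = w * w := by
    show 56271 - Sf x y z = w * w
    rw [Sf_eq]
    omega
  rw [h3, h4, h2, cond_sq]
  rfl

lemma lz_spec {x y z0 : ℕ} (h : lz x y z0 = true) (z : ℕ) (hz : z ≤ 237)
    (hz0 : z0 = z % 144) : ok x y z = true := by
  unfold lz at h
  rw [Bool.and_eq_true] at h
  rcases Nat.lt_or_ge z 144 with h1 | h1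
  · have : z0 = z := by omega
    rw [← this]
    exact h.1
  · have h2 : Nat.ble z0 93 = true := by
      rw [Nat.ble_eq]
      omega
    have h3 := h.2
    rw [h2, cond_true] at h3
    have h4 : Nat.add z0 144 = z := by
      show z0 + 144 = z
      omega
    rwa [h4] at h3

lemma ly_spec {x y0 z0 : ℕ} (h : ly x y0 z0 = true) (y z : ℕ) (hy : y ≤ 237)
    (hy0 : y0 = y % 144) (hz : z ≤ 237) (hz0 : z0 = z % 144) : ok x y z = true := by
  unfold ly at h
  rw [Bool.and_eq_true] at h
  rcases Nat.lt_or_ge y 144 with h1 | h1
  · have : y0 = y := by omega
    rw [← this]
    exact lz_spec h.1 z hz hz0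
  · have h2 : Nat.ble y0 93 = true := by
      rw [Nat.ble_eq]
      omega
    have h3 := h.2
    rw [h2, cond_true] at h3
    have h4 : Nat.add y0 144 = y := by
      show y0 + 144 = y
      omega
    rw [h4] at h3
    exact lz_spec h3 z hz hz0

lemma lx_spec {x0 y0 z0 : ℕ} (h : lx x0 y0 z0 = true) (x y z : ℕ) (hx : x ≤ 237)
    (hx0 : x0 = x % 144) (hy : y ≤ 237) (hy0 : y0 = y % 144) (hz : z ≤ 237)
    (hz0 : z0 = z % 144) : ok x y z = true := by
  unfold lx at h
  rw [Bool.and_eq_true] at h
  rcases Nat.lt_or_ge x 144 with h1 | h1
  · have : x0 = x := by omega
    rw [← this]
    exact ly_spec h.1 y z hy hy0 hz hz0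
  · have h2 : Nat.ble x0 93 = true := by
      rw [Nat.ble_eq]
      omega
    have h3 := h.2
    rw [h2, cond_true] at h3
    have h4 : Nat.add x0 144 = x := by
      show x0 + 144 = x
      omega
    rw [h4] at h3
    exact ly_spec h3 y z hy hy0 hz hz0

lemma crt_spec (x : ℕ) : crt (x % 16) (x % 9) = x % 144 := by
  show (81 * (x % 16) + 64 * (x % 9)) % 144 = x % 144
  omega

lemma Pf_mod (m x y z : ℕ) : Pf (x % m) (y % m) (z % m) % m = Pf x y z % m := by
  have e : ∀ x y z : ℕ, Pf x y z = 14 * (x * y) * (3 * (x * x) + 7 * (y * y) + z * z) :=
    fun _ _ _ => rfl
  rw [e, e]
  have hx : x % m ≡ x [MOD m] := Nat.mod_modEq x m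
  have hy : y % m ≡ y [MOD m] := Nat.mod_modEq y m
  have hz : z % m ≡ z [MOD m] := Nat.mod_modEq z m
  exact Nat.ModEq.mul (Nat.ModEq.mul_left 14 (hx.mul hy))
    ((Nat.ModEq.add (Nat.ModEq.mul_left 3 (hx.mul hx)) (Nat.ModEq.mul_left 7 (hy.mul hy))).add
      (hz.mul hz))

lemma allowed_of {m r x y z w s : ℕ} (hm : 0 < m) (hr : 56271 % m = r)
    (h1 : x * x + y * y + z * z + w * w = 56271) (h2 : Pf x y z = s * s) :
    allowed m r (x % m) (y % m) (z % m) = true := by
  unfold allowed
  rw [Bool.and_eq_true, List.any_eq_true, List.any_eq_true]
  constructor
  · refine ⟨w % m, List.mem_range.2 (Nat.mod_lt _ hm), ?_⟩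
    rw [Nat.beq_eq, ← hr, ← h1]
    have hx : x % m ≡ x [MOD m] := Nat.mod_modEq x m
    have hy : y % m ≡ y [MOD m] := Nat.mod_modEq y m
    have hz : z % m ≡ z [MOD m] := Nat.mod_modEq z m
    have hw : w % m ≡ w [MOD m] := Nat.mod_modEq w m
    exact ((((hx.mul hx).add (hy.mul hy)).add (hz.mul hz)).add (hw.mul hw))
  · refine ⟨s % m, List.mem_range.2 (Nat.mod_lt _ hm), ?_⟩
    rw [Nat.beq_eq, Pf_mod, h2, ← Nat.mul_mod]

lemma mem_L9 {x y z w s : ℕ} (h1 : x * x + y * y + z * z + w * w = 56271)
    (h2 : Pf x y z = s * s) : (x % 9, y % 9, z % 9) ∈ L9 := by
  have h3 : allowed 9 3 (x % 9) (y % 9) (z % 9) = true :=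
    allowed_of (by norm_num) (by norm_num) h1 h2
  have h4 := L9_complete
  rw [List.all_eq_true] at h4
  have h5 := h4 (x % 9) (List.mem_range.2 (Nat.mod_lt _ (by norm_num)))
  rw [List.all_eq_true] at h5
  have h6 := h5 (y % 9) (List.mem_range.2 (Nat.mod_lt _ (by norm_num)))
  rw [List.all_eq_true] at h6
  have h7 := h6 (z % 9) (List.mem_range.2 (Nat.mod_lt _ (by norm_num)))
  rw [h3, Bool.not_true, Bool.false_or, List.any_eq_true] at h7
  obtain ⟨⟨a, b, c⟩, ht, h8⟩ := h7
  simp only [Bool.and_eq_true, Nat.beq_eq] at h8
  obtain ⟨rfl, rfl, rfl⟩ := h8
  exact ht

lemma row_all (a : ℕ) (ha : a < 16) : row a = true := by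
  interval_cases a
  exacts [row0, row1, row2, row3, row4, row5, row6, row7, row8, row9, row10, row11, row12, row13,
    row14, row15]

lemma main {x y z w s : ℕ} (h1 : x * x + y * y + z * z + w * w = 56271)
    (h2 : Pf x y z = s * s) : False := by
  have hx : x ≤ 237 := by nlinarith
  have hy : y ≤ 237 := by nlinarith
  have hz : z ≤ 237 := by nlinarith
  have h3 := row_all (x % 16) (Nat.mod_lt _ (by norm_num))
  unfold row at h3
  rw [List.all_eq_true] at h3
  have h4 := h3 (y % 16) (List.mem_range.2 (Nat.mod_lt _ (by norm_num)))
  rw [List.all_eq_true] at h4
  have h5 := h4 (z % 16) (List.mem_range.2 (Nat.mod_lt _ (by norm_num)))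
  have h6 : allowed 16 15 (x % 16) (y % 16) (z % 16) = true :=
    allowed_of (by norm_num) (by norm_num) h1 h2
  rw [h6, cond_true] at h5
  unfold inner at h5
  rw [List.all_eq_true] at h5
  have h7 := h5 _ (mem_L9 h1 h2)
  simp only [crt_spec] at h7
  have h8 := lx_spec h7 x y z hx rfl hy rfl hz rfl
  rw [ok_sound h1 h2] at h8
  exact absurd h8 (by simp)

/-- **Disproof.** For `(c₁, c₂, c₃) = (42, 98, 14)` and `n = 56271` there are no nonnegative integers
`x, y, z, w` with `n = x² + y² + z² + w²` and `x y (c₁ x² + c₂ y² + c₃ z²)` a square. -/
theorem result : ¬ ∃ x y z w : ℕ, 56271 = x ^ 2 + y ^ 2 + z ^ 2 + w ^ 2 ∧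
    IsSquare (x * y * (42 * x ^ 2 + 98 * y ^ 2 + 14 * z ^ 2)) := by
  rintro ⟨x, y, z, w, h1, s, h2⟩
  refine main (x := x) (y := y) (z := z) (w := w) (s := s) (by rw [h1]; ring) ?_
  rw [Pf_eq]
  exact h2

end Pool.Agent.Results.MP_dfd283_nt.CounterexampleTriple
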